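import Pool.Agent.Helper3K9.CI.Main

/-!
# Complete intersections of arbitrary degrees in `A × ℙⁿ`, `A` a product of CM elliptic curves

`E_i : y² = x³ + a_i x` or `y² = x³ + b_i` (`i = 1, …, r`) are elliptic curves over `ℚ` of arbitrary rank, embedded
as plane cubics with the coordinates `V_i`; `A = E_1 × … × E_r`. For degrees `(d_j ; e_j)`, `j = 1, …, n`, `e_j ≥ 2`,
consider the `r`-dimensional subschemes

  `X_c : F_1 = … = F_n = 0` of `A × ℙⁿ`, `F_j = Σ_m c_{j,m} V^{m.1} x^{m.2}`, `|c_{j,m}| ≤ H`,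

where `m` runs through a set `S_j` of monomials of multidegree `(d_j ; e_j)` which contains the products of the pure
powers `∏ V_{i,σ(i)} ^ {d_{j,i}}` and arbitrary monomials of degree `e_j` in `x_0, …, x_n` (for example all monomials).
If `d_{j,i} > 0` and `Σ e_j > n + 1` and `S_j` consists of all monomials, then the general `X_c` is smooth of dimension
`r` and of general type. All but `O(H ^ (N - 1/5 + ε))` of the about `(2H)^N` varieties `X_c` have no rational point.

The proof (`Pool.Agent.Helper3K9.CI`): a general theorem (`Pool.Agent.Helper3K9.CI.general`) for families of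
subschemes of `A × ℙⁿ` given by arbitrary equations, for which modulo `p` the proportion of the parameters such that
the fibre over a point of `A` has a rational point is bounded away from 1; and a local density theorem
(`Pool.Agent.Helper3K9.CI.dens`; interpolation at three points of `ℙⁿ` and the third Bonferroni inequality). The
abstract sieve `Pool.Agent.W659.FD.absg` of the starting files is applied.
-/

set_option autoImplicit false

namespace Pool.Agent.Results.MP_2ae8fe_ag.CompleteIntersections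

theorem result (r n : ℕ) (hn : 1 ≤ n) (a b : Fin r → ℤ)
    (hab : ∀ i, a i * b i = 0 ∧ (a i ≠ 0 ∨ b i ≠ 0))
    (d : Fin n → Fin r → ℕ) (e : Fin n → ℕ) (he : ∀ j, 2 ≤ e j)
    (S : Fin n → Finset ((Fin r → Fin 3 → ℕ) × (Fin (n + 1) → ℕ)))
    (hdeg : ∀ j, ∀ m ∈ S j, (∀ i, ∑ k, m.1 i k = d j i) ∧ ∑ l, m.2 l = e j)
    (hfull : ∀ j (σ : Fin r → Fin 3) (μ : Fin (n + 1) → ℕ), ∑ l, μ l = e j →
      ((fun i k => if k = σ i then d j i else 0), μ) ∈ S j)
    (ε : ℝ) (hε : 0 < ε) :
    ∃ C : ℝ, ∀ H : ℕ, 1 ≤ H →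
      (({c : ((j : Fin n) × S j) → ℤ | (∀ m, |c m| ≤ H) ∧
        ∃ (V : Fin r → Fin 3 → ℚ) (x : Fin (n + 1) → ℚ),
          (∀ i, V i ≠ 0 ∧ V i 1 ^ 2 * V i 2 = V i 0 ^ 3 + a i * V i 0 * V i 2 ^ 2 + b i * V i 2 ^ 3) ∧
          x ≠ 0 ∧
          ∀ j, ∑ m : S j, (c ⟨j, m⟩ : ℚ) *
            ((∏ i, ∏ k, V i k ^ m.1.1 i k) * ∏ l, x l ^ m.1.2 l) = 0}.ncard : ℕ) : ℝ) ≤
        C * (H : ℝ) ^ ((Fintype.card ((j : Fin n) × S j) : ℝ) - 1 / 5 + ε) :=
  Pool.Agent.Helper3K9.CI.complete_intersections r n hn a b hab d e he S ⟨hdeg, hfull⟩ ε hε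

end Pool.Agent.Results.MP_2ae8fe_ag.CompleteIntersections
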