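import Pool.Agent.Helper3K9.CI.Main2

/-!
# Covers of arbitrary degree of products of CM elliptic curves: only two coefficients vary

`E_i : y² = x³ + a_i x` or `y² = x³ + b_i` (`i = 1, …, r`) are elliptic curves over `ℚ` of arbitrary rank, embedded
as plane cubics with the coordinates `V_i`; `A = E_1 × … × E_r`, `L = O(k_1, …, k_r)` on `A`. For `D ≥ 2` consider
the covers of degree `D` of `A` in the line bundle `L`

  `X_c : w ^ D + s_1 w ^ (D-1) + ⋯ + s_D = 0`, `s_i = g_i + Σ_m c_{i,m} V^m`, `|c_{i,m}| ≤ H`,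

where `g_i` are arbitrary fixed forms (sections of `L^i`) and `m` runs through a set `S_i` of monomials of
multidegree `i k`. Only `S_(D-1)` and `S_D` are required to contain the pure monomials `∏ V_{l,σ(l)} ^ {i k_l}`; all
the other sets may be empty, so that `s_1, …, s_(D-2)` may be fixed. (If all `k_l > 0` and `S_(D-1)`, `S_D` consist
of all monomials, then the general `X_c` is smooth of dimension `r` and of general type.) All but
`O(H ^ (N - 1/5 + ε))` of the about `(2H)^N` covers `X_c` have no rational point.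

The proof (`Pool.Agent.Helper3K9.CI`): a general theorem (`general2`) for families of subschemes of projective
bundles `ℙ(L_0 ⊕ … ⊕ L_n)` over `A` given by arbitrary equations, for which modulo `p` the proportion of the
parameters such that the fibre over a point of `A` has a rational point is bounded away from 1; and the bound
`1 - 1/(2D)` for this proportion (`cov_dens`, second moment). The abstract sieve `Pool.Agent.W659.FD.absg` of the
starting files is applied.
-/

set_option autoImplicit false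

namespace Pool.Agent.Results.MP_2ae8fe_ag.CoversWithTwoVaryingCoefficients

open MvPolynomial

theorem result (r D : ℕ) (hD : 2 ≤ D) (a b : Fin r → ℤ)
    (hab : ∀ i, a i * b i = 0 ∧ (a i ≠ 0 ∨ b i ≠ 0)) (k : Fin r → ℕ)
    (g : Fin D → MvPolynomial (Fin r × Fin 3) ℤ)
    (hg : ∀ i, ∀ m ∈ (g i).support, ∀ l, ∑ j, m (l, j) = ((i : ℕ) + 1) * k l)
    (S : Fin D → Finset (Fin r → Fin 3 → ℕ))
    (hS : ∀ i, ∀ m ∈ S i, ∀ l, ∑ j, m l j = ((i : ℕ) + 1) * k l)
    (hlast : ∀ i : Fin D, D ≤ (i : ℕ) + 2 → ∀ σ : Fin r → Fin 3,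
      (fun l j => if j = σ l then ((i : ℕ) + 1) * k l else 0) ∈ S i)
    (ε : ℝ) (hε : 0 < ε) :
    ∃ C : ℝ, ∀ H : ℕ, 1 ≤ H →
      (({c : ((i : Fin D) × S i) → ℤ | (∀ m, |c m| ≤ H) ∧ ∃ (V : Fin r → Fin 3 → ℚ) (w : ℚ),
          (∀ i, V i ≠ 0 ∧ V i 1 ^ 2 * V i 2 = V i 0 ^ 3 + a i * V i 0 * V i 2 ^ 2 + b i * V i 2 ^ 3) ∧
          w ^ D + ∑ i : Fin D, (aeval (fun ij : Fin r × Fin 3 => V ij.1 ij.2) (g i) +
            ∑ m : S i, (c ⟨i, m⟩ : ℚ) * ∏ l, ∏ j, V l j ^ m.1 l j) *
              w ^ (D - 1 - (i : ℕ)) = 0}.ncard : ℕ) : ℝ) ≤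
        C * (H : ℝ) ^ ((Fintype.card ((i : Fin D) × S i) : ℝ) - 1 / 5 + ε) :=
  Pool.Agent.Helper3K9.CI.covers r D hD a b hab k g hg S hS hlast ε hε

end Pool.Agent.Results.MP_2ae8fe_ag.CoversWithTwoVaryingCoefficients
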