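import Pool.Agent.Helper3K9.EV.One

/-!
# Covers of even degree of products of CM elliptic curves: thin families, down to one parameter

`E_i : y² = x³ + a_i x` or `y² = x³ + b_i` (`i = 1, …, r`) are elliptic curves over `ℚ` of arbitrary rank, embedded
as plane cubics with the coordinates `V_i`; `A = E_1 × … × E_r`, `L = O(e_1, …, e_r)` on `A`. Let `D ≥ 2` be even.
For integers `c = (u, t)`, `u ∈ ℤ^l`, `t ∈ ℤ^k`, `|c| ≤ H`, consider the cover of degree `D` of `A` in the line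
bundle `L`

  `X_c : w ^ D + s_1(V; u) w ^ (D-1) + ⋯ + s_D(V; u) + t_1 F_1(V) + ⋯ + t_k F_k(V) = 0`,

where the `s_i` are ARBITRARY polynomials in `V` and `u`, homogeneous of multidegree `i e` in `V` (for `l = 0`:
arbitrary fixed sections of `L^i`), and the only condition is that the forms `F_1, …, F_k` have no common zero on
`A` modulo `p` for the large primes `p ≡ -1 mod M`, for some `M` (for instance `k = r + 1` general forms, or forms
without a common zero on `A(ℂ)`). Then all but `O(H ^ (l + k - 1/5 + ε))` of the `(2H+1)^(l+k)` covers have no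
rational point.

The theorem `one_parameter` below is the case `l = 0`, `k = 1`, `F = ∏ (y_i² + z_i²) ^ {D e_i / 2}`: for all
sections `s_1, …, s_D` all but `O(H ^ (4/5 + ε))` of the integers `t`, `|t| ≤ H`, are such that the cover
`w ^ D + s_1 w ^ (D-1) + ⋯ + s_D + t F = 0` has no rational point. (If all `e_i > 0` and the `s_i` are general,
then `X_c` is smooth of dimension `r` with ample canonical class.)

The proof (`Pool.Agent.Helper3K9.EV`): for a monic polynomial `Ψ` of even degree `D` over a finite field the curve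
`(Ψ(x) - Ψ(y)) / (x - y) = 0` has the smooth rational point `(1 : -1 : 0)` at infinity, so it has an absolutely
irreducible component over the field (`exists_absirr`), and the Weil bound (`Pool.Agent.R410.PW.weil` of the
starting files) shows that `Ψ` omits at least `q / (2 D)` values, for `q` large (`value_set`). Then the sieve for
families in projective bundles over `A` (`Pool.Agent.Helper3K9.CI.general2`, based on the abstract sieve
`Pool.Agent.W659.FD.absg` of the starting files) is applied.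
-/

set_option autoImplicit false

namespace Pool.Agent.Results.MP_2ae8fe_ag.EvenCoversThinFamilies

open MvPolynomial

theorem result (r D l k : ℕ) (hD2 : 2 ≤ D) (hD : Even D) (hk : 1 ≤ k) (a b : Fin r → ℤ)
    (hab : ∀ i, a i * b i = 0 ∧ (a i ≠ 0 ∨ b i ≠ 0)) (e : Fin r → ℕ)
    -- the coefficients `s_(i+1)`, of multidegree `(i + 1) e` in `V`
    (s : Fin D → MvPolynomial ((Fin r × Fin 3) ⊕ Fin l) ℤ)
    (hs : ∀ i, ∀ m ∈ (s i).support, ∀ n, ∑ j, m (Sum.inl (n, j)) = ((i : ℕ) + 1) * e n)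
    -- the forms `F_j` of multidegree `D e`
    (F : Fin k → MvPolynomial (Fin r × Fin 3) ℤ)
    (hF : ∀ j, ∀ m ∈ (F j).support, ∀ n, ∑ i, m (n, i) = D * e n) (M : ℕ) (hM : 1 ≤ M)
    (hF0 : ∃ p₁ : ℕ, ∀ (p : ℕ) [Fact p.Prime], p₁ ≤ p → M ∣ p + 1 → ∀ V : Fin r → Fin 3 → ZMod p,
      (∀ i, V i ≠ 0 ∧ V i 1 ^ 2 * V i 2 = V i 0 ^ 3 + a i * V i 0 * V i 2 ^ 2 + b i * V i 2 ^ 3) →
      ∃ j, aeval (fun ij : Fin r × Fin 3 => V ij.1 ij.2) (F j) ≠ 0)
    (ε : ℝ) (hε : 0 < ε) :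
    ∃ C : ℝ, ∀ H : ℕ, 1 ≤ H →
      (({c : Fin l ⊕ Fin k → ℤ | (∀ m, |c m| ≤ H) ∧
        ∃ (V : Fin r → Fin 3 → ℚ) (w : ℚ),
          (∀ i, V i ≠ 0 ∧ V i 1 ^ 2 * V i 2 = V i 0 ^ 3 + a i * V i 0 * V i 2 ^ 2 + b i * V i 2 ^ 3) ∧
          w ^ D + ∑ i : Fin D,
            aeval (Sum.elim (fun ij : Fin r × Fin 3 => V ij.1 ij.2) (fun m => (c (Sum.inl m) : ℚ))) (s i) *
              w ^ (D - 1 - (i : ℕ)) +
            ∑ j : Fin k, (c (Sum.inr j) : ℚ) *
              aeval (fun ij : Fin r × Fin 3 => V ij.1 ij.2) (F j) = 0}.ncard : ℕ) : ℝ) ≤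
        C * (H : ℝ) ^ ((l : ℝ) + k - 1 / 5 + ε) :=
  Pool.Agent.Helper3K9.EV.even_covers_cm r D l k hD2 hD hk a b hab e s hs F hF M hM hF0 ε hε

/-- the special case of one parameter, with the form `F = ∏ (y_i² + z_i²) ^ {D e_i / 2}`, `D = 2 d`, and arbitrary
sections `s_1, …, s_D` -/
theorem one_parameter (r d : ℕ) (hd : 1 ≤ d) (a b : Fin r → ℤ)
    (hab : ∀ i, a i * b i = 0 ∧ (a i ≠ 0 ∨ b i ≠ 0))
    (e : Fin r → ℕ) (s : Fin (2 * d) → MvPolynomial (Fin r × Fin 3) ℤ)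
    (hs : ∀ i, ∀ m ∈ (s i).support, ∀ n, ∑ j, m (n, j) = ((i : ℕ) + 1) * e n) (ε : ℝ) (hε : 0 < ε) :
    ∃ C : ℝ, ∀ H : ℕ, 1 ≤ H →
      (({t : ℤ | |t| ≤ H ∧ ∃ (V : Fin r → Fin 3 → ℚ) (w : ℚ),
          (∀ i, V i ≠ 0 ∧ V i 1 ^ 2 * V i 2 = V i 0 ^ 3 + a i * V i 0 * V i 2 ^ 2 + b i * V i 2 ^ 3) ∧
          w ^ (2 * d) + ∑ i : Fin (2 * d), aeval (fun ij : Fin r × Fin 3 => V ij.1 ij.2) (s i) *
            w ^ (2 * d - 1 - (i : ℕ)) + t * ∏ i, (V i 1 ^ 2 + V i 2 ^ 2) ^ (d * e i) = 0}.ncard : ℕ) : ℝ) ≤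
        C * (H : ℝ) ^ (4 / 5 + ε) :=
  Pool.Agent.Helper3K9.EV.one_parameter r d hd a b hab e s hs ε hε

end Pool.Agent.Results.MP_2ae8fe_ag.EvenCoversThinFamilies
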