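import Pool.Agent.Helper3K9.EV.OneJ

/-!
# Covers of any degree of products of CM elliptic curves: only one middle coefficient varies

`E_i : y² = x³ + a_i x` or `y² = x³ + b_i` (`i = 1, …, r`) are elliptic curves over `ℚ` of arbitrary rank, embedded
as plane cubics with the coordinates `V_i`; `A = E_1 × … × E_r`, `L = O(e_1, …, e_r)` on `A`. Let `1 ≤ j < D` with
`D - j` even; `D` may be even or odd. For integers `c = (u, t)`, `u ∈ ℤ^l`, `t ∈ ℤ^k`, `|c| ≤ H`, consider the cover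
of degree `D` of `A` in the line bundle `L`

  `X_c : w ^ D + s_1(V; u) w ^ (D-1) + ⋯ + s_D(V; u) + (t_1 F_1(V) + ⋯ + t_k F_k(V)) w ^ j = 0`,

where the `s_i` are polynomials in `V` and `u`, homogeneous of multidegree `i e` in `V` (for `l = 0`: fixed sections
of `L^i`). The conditions are: the forms `F_1, …, F_k` of multidegree `(D - j) e` have no common zero on `A` modulo
`p`, and the constant coefficient `s_D(V; u)` has no zero on `A` modulo `p` for any `u`, for the large primes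
`p ≡ -1 mod M`, for some `M`. Nothing is assumed about the coefficients `s_1, …, s_(D-1)`. Then all but
`O(H ^ (l + k - 1/5 + ε))` of the `(2H+1)^(l+k)` covers have no rational point.

The theorem `one_parameter` below is the case `l = 0`, `k = 1`, `e = 2 e'`, `F = ∏ (y_i² + z_i²) ^ {(D-j) e'_i}`,
`s_D = ∏ (y_i² + z_i²) ^ {D e'_i}` (for instance `D = 3`, `j = 1`: `w³ + s_1 w² + (s_2 + t F) w + s_3 = 0`): for all
sections `s_1, …, s_(D-1)` all but `O(H ^ (4/5 + ε))` of the integers `t`, `|t| ≤ H`, are such that the cover has no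
rational point.

The proof (`Pool.Agent.Helper3K9.EV`): over a finite field `w` is never `0` on `X_c`, so a point of `X_c` over `V`
shows that `t F(V)` is a value of `Ψ(w) = - (w ^ D + s_1 w ^ (D-1) + ⋯ + s_D) / w ^ j`, a rational function with a
pole of EVEN order `D - j` at infinity (for `i = D - j` the term `s_i w ^ (D-i)` only shifts the values). The curve
`(Ψ(x) - Ψ(y)) / (x - y) = 0` has the smooth rational point `(1 : -1 : 0)` at infinity, so it has an absolutely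
irreducible component over the field (`exists_absirr`), and the Weil bound (`Pool.Agent.R410.PW.weil` of the
starting files) shows that `Ψ` omits a positive proportion of the field (`value_set_j`). Then the sieve for
families in projective bundles over `A` (`Pool.Agent.Helper3K9.CI.general2`, based on the abstract sieve
`Pool.Agent.W659.FD.absg` of the starting files) is applied.
-/

set_option autoImplicit false

namespace Pool.Agent.Results.MP_2ae8fe_ag.OneMiddleCoefficientVaries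

open MvPolynomial

theorem result (r D j l k : ℕ) (hj1 : 1 ≤ j) (hj : j < D) (hD : Even (D - j)) (hk : 1 ≤ k) (a b : Fin r → ℤ)
    (hab : ∀ i, a i * b i = 0 ∧ (a i ≠ 0 ∨ b i ≠ 0)) (e : Fin r → ℕ)
    -- the coefficients `s_(i+1)`, of multidegree `(i + 1) e` in `V`
    (s : Fin D → MvPolynomial ((Fin r × Fin 3) ⊕ Fin l) ℤ)
    (hs : ∀ i, ∀ m ∈ (s i).support, ∀ n, ∑ q, m (Sum.inl (n, q)) = ((i : ℕ) + 1) * e n)
    -- the forms `F_q` of multidegree `(D - j) e`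
    (F : Fin k → MvPolynomial (Fin r × Fin 3) ℤ)
    (hF : ∀ q, ∀ m ∈ (F q).support, ∀ n, ∑ i, m (n, i) = (D - j) * e n) (M : ℕ) (hM : 1 ≤ M)
    -- modulo the large primes `p ≡ -1 mod M` the forms `F_q` have no common zero and `s_D` has no zero on `A`
    (h0 : ∃ p₁ : ℕ, ∀ (p : ℕ) [Fact p.Prime], p₁ ≤ p → M ∣ p + 1 → ∀ V : Fin r → Fin 3 → ZMod p,
      (∀ i, V i ≠ 0 ∧ V i 1 ^ 2 * V i 2 = V i 0 ^ 3 + a i * V i 0 * V i 2 ^ 2 + b i * V i 2 ^ 3) →
      (∃ q, aeval (fun ij : Fin r × Fin 3 => V ij.1 ij.2) (F q) ≠ 0) ∧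
      ∀ i : Fin D, (i : ℕ) + 1 = D → ∀ u : Fin l → ZMod p,
        aeval (Sum.elim (fun ij : Fin r × Fin 3 => V ij.1 ij.2) u) (s i) ≠ 0)
    (ε : ℝ) (hε : 0 < ε) :
    ∃ C : ℝ, ∀ H : ℕ, 1 ≤ H →
      (({c : Fin l ⊕ Fin k → ℤ | (∀ m, |c m| ≤ H) ∧
        ∃ (V : Fin r → Fin 3 → ℚ) (w : ℚ),
          (∀ i, V i ≠ 0 ∧ V i 1 ^ 2 * V i 2 = V i 0 ^ 3 + a i * V i 0 * V i 2 ^ 2 + b i * V i 2 ^ 3) ∧
          w ^ D + ∑ i : Fin D,
            aeval (Sum.elim (fun ij : Fin r × Fin 3 => V ij.1 ij.2) (fun m => (c (Sum.inl m) : ℚ))) (s i) *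
              w ^ (D - 1 - (i : ℕ)) +
            (∑ n : Fin k, (c (Sum.inr n) : ℚ) *
              aeval (fun ij : Fin r × Fin 3 => V ij.1 ij.2) (F n)) * w ^ j = 0}.ncard : ℕ) : ℝ) ≤
        C * (H : ℝ) ^ ((l : ℝ) + k - 1 / 5 + ε) :=
  Pool.Agent.Helper3K9.EV.middle_covers_cm r D j l k hj1 hj hD hk a b hab e s hs F hF M hM h0 ε hε

/-- the special case of one parameter, with the forms `F = ∏ (y_i² + z_i²) ^ {(D-j) e_i}` and
`s_D = ∏ (y_i² + z_i²) ^ {D e_i}`, and arbitrary sections `s_1, …, s_(D-1)`, `s_i` of multidegree `2 i e` -/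
theorem one_parameter (r D j : ℕ) (hj1 : 1 ≤ j) (hj : j < D) (hD : Even (D - j)) (a b : Fin r → ℤ)
    (hab : ∀ i, a i * b i = 0 ∧ (a i ≠ 0 ∨ b i ≠ 0))
    (e : Fin r → ℕ) (s : Fin D → MvPolynomial (Fin r × Fin 3) ℤ)
    (hs : ∀ i, ∀ m ∈ (s i).support, ∀ n, ∑ q, m (n, q) = ((i : ℕ) + 1) * (2 * e n)) (ε : ℝ) (hε : 0 < ε) :
    ∃ C : ℝ, ∀ H : ℕ, 1 ≤ H →
      (({t : ℤ | |t| ≤ H ∧ ∃ (V : Fin r → Fin 3 → ℚ) (w : ℚ),
          (∀ i, V i ≠ 0 ∧ V i 1 ^ 2 * V i 2 = V i 0 ^ 3 + a i * V i 0 * V i 2 ^ 2 + b i * V i 2 ^ 3) ∧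
          w ^ D + ∑ i : Fin D, (if (i : ℕ) + 1 = D then ∏ i, (V i 1 ^ 2 + V i 2 ^ 2) ^ (D * e i) else
              aeval (fun ij : Fin r × Fin 3 => V ij.1 ij.2) (s i)) * w ^ (D - 1 - (i : ℕ)) +
            t * (∏ i, (V i 1 ^ 2 + V i 2 ^ 2) ^ ((D - j) * e i)) * w ^ j = 0}.ncard : ℕ) : ℝ) ≤
        C * (H : ℝ) ^ (4 / 5 + ε) :=
  Pool.Agent.Helper3K9.EV.one_parameter_j r D j hj1 hj hD a b hab e s hs ε hε

end Pool.Agent.Results.MP_2ae8fe_ag.OneMiddleCoefficientVaries
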